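import Pool.Agent.R516.LIE

set_option autoImplicit false

/-!
# A local form of Ingham's zero density bound

For `0 ≤ κ ≤ 1` the zeros `ρ = β + iγ` of the Riemann zeta function with `β ≥ σ`, `0 < γ ≤ T`, such that
`|ζ(1/2 + it)| ≤ T^κ` for `|t - γ| ≤ H`, where `H` depends only on `ε`, number at most
`C T^((2 + 4κ)(1-σ) + ε)`. In particular the density hypothesis holds for the zeros near which
`|ζ(1/2 + it)|` is at most `T^κ` with small `κ`. The other zeros are controlled by the number of the unit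
intervals which contain a value of `|ζ(1/2 + it)|` larger than `T^κ`.

Proof. Let `F = ζ M - 1` with `M` the truncated Dirichlet series of `1/ζ` of length `T`. Hadamard's three
lines theorem, applied to `F(s) (s-1)/(s+1) exp(k (s-ρ)^2)`, `k = ε' log T`, in the strip
`1/2 ≤ Re s ≤ 1 + δ`, uses `F` only near `ρ`. The mean squares of `M` on the line `Re s = 1/2` and of `F`
on the line `Re s = 1 + δ` are bounded by the mean value theorem at one point of each unit interval, and the
two are combined by Hölder's inequality.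

Parts of the proof (mean value theorem at well spaced points, coefficients of the mollified zeta function,
passage from unit intervals to zeros) are from the library `Pool.Agent.H31R2.DH`.
-/

namespace Pool.Agent.Results.MP_4467b5_nt.LocalIngham

/-- zeros of zeta with real part at least `σ` and ordinate in `(0, T]` -/
def zeros (σ T : ℝ) : Set ℂ := {s : ℂ | riemannZeta s = 0 ∧ σ ≤ s.re ∧ 0 < s.im ∧ s.im ≤ T}

/-- the number of the elements of a set `A` of zeros of zeta, counted with multiplicity -/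
noncomputable def count (A : Set ℂ) : ℕ := ∑ᶠ s ∈ A, analyticOrderNatAt riemannZeta s

/-- the zeros `β + iγ` with `β ≥ σ` and `0 < γ ≤ T` such that `|ζ(1/2 + it)| ≤ V` for all `t` with
`|t - γ| ≤ H` -/
def quiet (V H σ T : ℝ) : Set ℂ :=
  {ρ : ℂ | ρ ∈ zeros σ T ∧
    ∀ t : ℝ, |t - ρ.im| ≤ H → ‖riemannZeta (1 / 2 + t * Complex.I)‖ ≤ V}

/-- the integers `0 ≤ n ≤ T` such that `|ζ(1/2 + it)| > V` for some `t` in `[n, n + 1]` -/
def large (V T : ℝ) : Set ℕ :=
  {n : ℕ | (n : ℝ) ≤ T ∧
    ∃ t : ℝ, n ≤ t ∧ t ≤ n + 1 ∧ V < ‖riemannZeta (1 / 2 + t * Complex.I)‖}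

/-- the sets that are counted are finite -/
theorem large_finite (V T : ℝ) : (large V T).Finite := Pool.Agent.R516.LI.large_finite V T

/-- the sets that are counted are finite -/
theorem zeros_finite (σ T : ℝ) : (zeros σ T).Finite := DH31.zeros_finite σ T

theorem result (ε : ℝ) (hε : 0 < ε) : ∃ H C T₀ : ℝ, 0 < H ∧ 0 < C ∧ ∀ T : ℝ, T₀ ≤ T →
    ∀ κ : ℝ, 0 ≤ κ → κ ≤ 1 → ∀ σ : ℝ, 1 / 2 ≤ σ → σ ≤ 1 →
      (count (quiet (T ^ κ) H σ T) : ℝ) ≤ C * T ^ ((2 + 4 * κ) * (1 - σ) + ε) ∧
      (count (zeros σ T) : ℝ) ≤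
        C * T ^ ε * (T ^ ((2 + 4 * κ) * (1 - σ)) + ((large (T ^ κ) (T + H)).ncard : ℝ)) :=
  Pool.Agent.R516.LI.main ε hε

end Pool.Agent.Results.MP_4467b5_nt.LocalIngham
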